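import Pool.Agent.W_448s8f_h76.FiQ

/-!
The unnatural elements of level `2 m + 1` without the seventh step (MP_448cb3_co, S7, window `m`).
-/

namespace Pool.Agent.GaussPoset.Fi

set_option linter.unusedSectionVars false

open Polynomial Finset

universe u

variable {P : Type u} [Fintype P] [PartialOrder P] [DecidableEq P] {r i m K : ℕ}
  {N : Tops P → Finset P} {b : Tops P → ℕ} {θ : Tops P → P → ℕ}

/-- the unnatural elements of level `2 m + 1` which are no twins -/
inductive Kd0 (i m : ℕ) (N : Tops P → Finset P) (θ : Tops P → P → ℕ) (z : P) : Prop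
  | penF (x : P) (hx : Fd m x) (hzx : Pend z x)
  | penH (x : P) (hx : He i m N θ x) (hzx : Pend z x)
  | join (x x' : P) (h1 : (Win.uc x).card = 1) (h2 : (Win.uc x').card = 1)
      (ht : topOf x ≠ topOf x') (hzx : z ⋖ x) (hzx' : z ⋖ x')
  | cc (x x' : P) (hx : Fd m x) (h1 : (Win.uc x').card = 1) (ht : topOf x' = topOf x)
      (hne : x ≠ x') (hzx : z ⋖ x) (hzx' : z ⋖ x')
  | full (h : ∀ x, z ⋖ x → Full i m N θ x)

/-- the classification -/
theorem WC.class0 (W : WC r i m K N b θ) {z : P} (hz : z ∈ r2 (2 * m) N)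
    (hl : lev z = 2 * m + 1) : Kd0 i m N θ z := by
  classical
  have H := W.gt.H
  have h4 := W.hi
  have him := W.him
  have hzt : z < (topOf z : P) := lt_of_le_of_ne (le_topOf z) (by
    intro h
    have := (topOf z).2
    rw [← h] at this
    omega)
  obtain ⟨x, hzx, hxt⟩ := Hul.exists_cov hzt
  have hlev : ∀ y, z ⋖ y → lev y = 2 * m := by
    intro y hy
    have := (H.covBy_iff.mp hy).2
    omega
  have hlx := hlev x hzx
  by_cases honly : ∀ y, z ⋖ y → y = x
  · rcases W.kind hlx with h | h | h | h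
    · refine Kd0.full fun y hy => ?_
      rw [honly y hy]
      exact h
    · exact Kd0.penF x h ⟨hzx, honly⟩
    · exact Kd0.penH x h ⟨hzx, honly⟩
    · exact absurd honly (h.2 x z (le_topOf x) hlx h.1 hzx)
  · push Not at honly
    obtain ⟨x', hzx', hne'⟩ := honly
    have hne : x ≠ x' := Ne.symm hne'
    have hlx' := hlev x' hzx'
    obtain ⟨j, hj⟩ : ∃ j, 2 * m = j + 1 := ⟨2 * m - 1, by omega⟩
    have hgt := W.gt
    rw [hj] at hgt
    rcases (Win.near_level' hgt (by omega)).1 z x x' (by omega) hzx hzx' hne with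
      h7 | ⟨h7, h8, -⟩
    · exact (W.near hz hl hzx hzx' hne h7).elim
    · by_cases ht : topOf x = topOf x'
      · have hQ : ∀ y, z ⋖ y → ¬ He i m N θ y := by
          intro y hy hQ
          rcases uc_pair H hzx hzx' hne hy with h | h
          · subst h
            exact hne (hQ.uniq x' (by rw [ht]; exact le_topOf x') hlx').symm
          · subst h
            exact hne (hQ.uniq x (by rw [← ht]; exact le_topOf x) hlx)
        rcases W.kind hlx with h | h | h | h
        · rcases W.kind hlx' with h' | h' | h' | h'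
          · refine Kd0.full fun y hy => ?_
            rcases uc_pair H hzx hzx' hne hy with e | e
            · rw [e]; exact h
            · rw [e]; exact h'
          · exact Kd0.cc x' x h' h7 ht hne' hzx' hzx
          · exact (hQ x' hzx' h').elim
          · omega
        · exact Kd0.cc x x' h h8 ht.symm hne hzx hzx'
        · exact (hQ x hzx h).elim
        · omega
      · exact Kd0.join x x' h7 h8 ht hzx hzx'

/-- the table -/
inductive Rw0 (i m : ℕ) (N : Tops P → Finset P) (θ : Tops P → P → ℕ) (z : P) : Prop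
  | penF (x : P) (hx : Fd m x) (hp : Pend z x) (hn : NQ i m N θ z (kF i m) (fun d => 1 + pF m d))
  | penH (x : P) (hx : He i m N θ x) (hp : Pend z x) (p : List ℕ) (hp' : p ∈ HL i m)
      (hn : NQ i m N θ z 1 (fun d => 1 + gD p d))
  | fh (x x' : P) (hx : Fd m x) (hx' : He i m N θ x') (ht : topOf x ≠ topOf x') (hzx : z ⋖ x)
      (hzx' : z ⋖ x') (p : List ℕ) (hp : p ∈ HL i m) (hpr : Prof m x' (gD p))
      (hn : NQ i m N θ z 1 (fun d => (1 + pF m d) + (1 + gD p d)))
  | ff (x x' : P) (hx : Fd m x) (hx' : Fd m x') (ht : topOf x ≠ topOf x') (hzx : z ⋖ x)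
      (hzx' : z ⋖ x') (hn : NQ i m N θ z (kF i m) (fun d => (1 + pF m d) + (1 + pF m d)))
  | fv (x x' : P) (hx : Fd m x) (hx' : Full i m N θ x') (h1 : (Win.uc x').card = 1)
      (ht : topOf x ≠ topOf x') (hzx : z ⋖ x) (hzx' : z ⋖ x') (p : List ℕ) (hp : p ∈ PL i m)
      (hpr : Prof m x' (gD p))
      (hn : NQ i m N θ z (kF i m) (fun d => (1 + pF m d) + (1 + gD p d)))
  | hv (x x' : P) (hx : He i m N θ x) (h1 : (Win.uc x').card = 1)
      (ht : topOf x ≠ topOf x') (hzx : z ⋖ x) (hzx' : z ⋖ x') (p p' : List ℕ) (hp : p ∈ HL i m)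
      (hp' : p' ∈ PL i m ++ HL i m) (hpr : Prof m x (gD p)) (hpr' : Prof m x' (gD p'))
      (hnf : ¬ Fd m x') (hn : NQ i m N θ z 1 (fun d => (1 + gD p d) + (1 + gD p' d)))
  | cc (x x' : P) (hx : Fd m x) (h1 : (Win.uc x').card = 1) (ht : topOf x' = topOf x)
      (hne : x ≠ x') (hzx : z ⋖ x) (hzx' : z ⋖ x')
  | full (hF : ∀ y, z ⋖ y → Full i m N θ y)
      (h : (2 * m + 1 - i) ^ 2 ≤ cst i (h2 (2 * m) N θ) z)

/-- the table of the elements of level `2 m + 1` -/
theorem WC.rows0 (W : WC r i m K N b θ) (hkF : i + kF i m ≤ 2 * m) {z : P}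
    (hz : z ∈ r2 (2 * m) N) (hl : lev z = 2 * m + 1) : Rw0 i m N θ z := by
  have H := W.gt.H
  have h4 := W.hi
  have him := W.him
  have hmi := W.hmi
  have W' := W.wi
  have hlev : ∀ y, z ⋖ y → lev y = 2 * m := by
    intro y hy
    have := (H.covBy_iff.mp hy).2
    omega
  have hFle : (m - 2 * (i / 2)) + (m - i) ≤ 2 * m - i := by omega
  have hfull : (∀ x, z ⋖ x → Full i m N θ x) → Rw0 i m N θ z := by
    intro h
    refine Rw0.full h ?_
    have hzt : z < (topOf z : P) := lt_of_le_of_ne (le_topOf z) (by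
      intro h
      have := (topOf z).2
      rw [← h] at this
      omega)
    obtain ⟨x, hzx, -⟩ := Hul.exists_cov hzt
    have h3 := W'.h2_eqI hz hl hzx (fun y hy => by
      rw [(h x hzx).th, (h y hy).th, hlev x hzx, hlev y hy])
    rw [(h x hzx).th, hlev x hzx] at h3
    have h5 := sq_le_cst (i := i) (h := h2 (2 * m) N θ) (z := z) (by omega)
      (by rw [h3]; omega) (by
        intro k hk hk2
        exact (h x hzx).two z (mem_sdiff.mp hz).1 hzx.le k (by omega) (by rw [hlev x hzx]; omega))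
    rwa [hl] at h5
  have hfhv : ∀ x x' : P, Fd m x → (Win.uc x').card = 1 → topOf x ≠ topOf x' → z ⋖ x →
      z ⋖ x' → Rw0 i m N θ z := by
    intro x x' hx h1 ht hzx hzx'
    have hne : x ≠ x' := fun h => ht (by rw [h])
    have hlx' := hlev x' hzx'
    rcases W.kind hlx' with h | h | h | h
    · obtain ⟨p, hp, hpr, -⟩ := W.full_prof hlx' h h1
      refine Rw0.fv x x' hx h h1 ht hzx hzx' p hp hpr (NQ.mk' hl hkF ?_ fun d hd => ?_)
      · rw [W'.h2_eqI hz hl hzx (fun y hy => ?_), W.fold_th hx]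
        · rfl
        · rcases uc_pair H hzx hzx' hne hy with e | e
          · rw [e]
          · rw [e, W.fold_th hx, h.th, hlx']
            exact hFle
      · rw [W'.nab_joinI hl hzx hzx' ht (by omega), W.fold_prof hx d (by omega),
          hpr d (by omega)]
    · refine Rw0.ff x x' hx h ht hzx hzx' (NQ.mk' hl hkF ?_ fun d hd => ?_)
      · rw [W'.h2_eqI hz hl hzx (fun y hy => ?_), W.fold_th hx]
        · rfl
        · rcases uc_pair H hzx hzx' hne hy with e | e
          · rw [e]
          · rw [e, W.fold_th hx, W.fold_th h]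
      · rw [W'.nab_joinI hl hzx hzx' ht (by omega), W.fold_prof hx d (by omega),
          W.fold_prof h d (by omega)]
    · obtain ⟨p, hp, hpr⟩ := h.prof
      refine Rw0.fh x x' hx h ht hzx hzx' p hp hpr (NQ.mk' hl (by omega) ?_ fun d hd => ?_)
      · rw [W'.h2_eqI hz hl hzx' (fun y hy => ?_), h.th]
        rw [h.th]
        exact Nat.zero_le _
      · rw [W'.nab_joinI hl hzx hzx' ht (by omega), W.fold_prof hx d (by omega),
          hpr d (by omega)]
    · omega
  have hhv : ∀ x x' : P, He i m N θ x → (Win.uc x').card = 1 → topOf x ≠ topOf x' → z ⋖ x →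
      z ⋖ x' → ¬ Fd m x' → Rw0 i m N θ z := by
    intro x x' hx h1 ht hzx hzx' hnf
    have hlx' := hlev x' hzx'
    obtain ⟨p, hp, hpr⟩ := hx.prof
    have hp' : ∃ p' ∈ PL i m ++ HL i m, Prof m x' (gD p') := by
      rcases W.kind hlx' with h | h | h | h
      · obtain ⟨p', hp', hpr', -⟩ := W.full_prof hlx' h h1
        exact ⟨p', List.mem_append_left _ hp', hpr'⟩
      · exact absurd h hnf
      · obtain ⟨p', hp', hpr'⟩ := h.prof
        exact ⟨p', List.mem_append_right _ hp', hpr'⟩
      · omega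
    obtain ⟨p', hp', hpr'⟩ := hp'
    refine Rw0.hv x x' hx h1 ht hzx hzx' p p' hp hp' hpr hpr' hnf
      (NQ.mk' hl (by omega) ?_ fun d hd => ?_)
    · rw [W'.h2_eqI hz hl hzx (fun y hy => ?_), hx.th]
      rw [hx.th]
      exact Nat.zero_le _
    · rw [W'.nab_joinI hl hzx hzx' ht (by omega), hpr d (by omega), hpr' d (by omega)]
  rcases W.class0 hz hl with ⟨x, hx, hp⟩ | ⟨x, hx, hp⟩ | ⟨x, x', h1, h2, ht, hzx, hzx'⟩ |
    ⟨x, x', hx, h1, ht, hne, hzx, hzx'⟩ | h
  · refine Rw0.penF x hx hp (NQ.mk' hl hkF ?_ fun d hd => ?_)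
    · rw [W'.h2_eqI hz hl hp.1 (fun y hy => by rw [hp.2 y hy]), W.fold_th hx]
      rfl
    · rw [nab_pend hp (by omega)]
      exact W.fold_prof hx d (by omega)
  · obtain ⟨p, hp', hpr⟩ := hx.prof
    refine Rw0.penH x hx hp p hp' (NQ.mk' hl (by omega) ?_ fun d hd => ?_)
    · rw [W'.h2_eqI hz hl hp.1 (fun y hy => by rw [hp.2 y hy]), hx.th]
    · rw [nab_pend hp (by omega)]
      exact hpr d (by omega)
  · by_cases hf : Fd m x
    · exact hfhv x x' hf h2 ht hzx hzx'
    · by_cases hf' : Fd m x'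
      · exact hfhv x' x hf' h1 (Ne.symm ht) hzx' hzx
      · rcases W.kind (hlev x hzx) with h | h | h | h
        · rcases W.kind (hlev x' hzx') with h' | h' | h' | h'
          · refine hfull fun y hy => ?_
            rcases uc_pair H hzx hzx' (fun h => ht (by rw [h])) hy with e | e
            · rw [e]; exact h
            · rw [e]; exact h'
          · exact absurd h' hf'
          · exact hhv x' x h' h1 (Ne.symm ht) hzx' hzx hf
          · omega
        · exact absurd h hf
        · exact hhv x x' h h2 ht hzx hzx' hf'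
        · omega
  · exact Rw0.cc x x' hx h1 ht hne hzx hzx'
  · exact hfull h

end Pool.Agent.GaussPoset.Fi
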