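import Pool.Agent.W_448w8_h94.GxA
import Pool.Agent.W_448w8_h94.GxB

/-!
S7 for `j = 16` (MP_448cb3_co): the window `8`.
-/

namespace Pool.Agent.GaussPoset.Fi

set_option linter.unusedSectionVars false

open Polynomial Finset

universe u

variable {P : Type u} [Fintype P] [PartialOrder P] [DecidableEq P] {r K : ℕ}
  {N : Tops P → Finset P} {b : Tops P → ℕ} {θ : Tops P → P → ℕ}

/-- number of extra elements -/
def mp (j : ℕ) (p : List ℕ) : ℕ := ∑ k ∈ range j, gD p (j - k)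

/-- total depth of the extra elements -/
def cp (j : ℕ) (p : List ℕ) : ℕ := ∑ k ∈ range j, gD p (j - k) * (j - k)

lemma Prof.nab8 {x : P} {p : ℕ → ℕ} (h : Prof 8 x p) {k : ℕ} (hk : k < 16) :
    (nab k x : ℤ) - 1 = p (16 - k) := by
  have h1 := h (16 - k) (by omega)
  rw [show 2 * 8 - (16 - k) = k by omega] at h1
  rw [h1]
  push_cast
  ring

lemma Prof.mX8 {x : P} {p : List ℕ} (h : Prof 8 x (gD p)) :
    mX 16 x = mp 16 p ∧ cX 16 x = cp 16 p := by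
  constructor
  · unfold mX mp
    rw [Nat.cast_sum]
    exact Finset.sum_congr rfl fun k hk => h.nab8 (mem_range.mp hk)
  · unfold cX cp
    rw [Nat.cast_sum]
    refine Finset.sum_congr rfl fun k hk => ?_
    have hk' := mem_range.mp hk
    rw [h.nab8 hk', Nat.cast_mul, Nat.cast_sub hk'.le]

/-- the pairs of ends which are left -/
def lp16 : List ((ℕ × ℕ × ℕ) × (ℕ × ℕ × ℕ)) :=
  [((5, 20, 1), (10, 80, 0)), ((10, 80, 0), (5, 20, 1))]

/-- the joins of level `17` without fold end -/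
def HJ8 (P : Type u) [Fintype P] [PartialOrder P] [DecidableEq P] : Prop :=
  ∀ z x x' : P, lev z = 2 * 8 + 1 → z ⋖ x → z ⋖ x' → topOf x ≠ topOf x' → ¬ Fd 8 x →
    ¬ Fd 8 x' → ∃ s s', (s, s') ∈ lp16 ∧ Sm.Dt 16 x s ∧ Sm.Dt 16 x' s'

/-- costs and signs of the joins with a heavy end -/
lemma hv_ok : ∀ p ∈ HL 8 8, ∀ p' ∈ PL 8 8 ++ HL 8 8,
    (∃ q ∈ lp16, q.1.1 = mp 16 p ∧ q.1.2.1 = cp 16 p ∧ q.2.1 = mp 16 p' ∧ q.2.2.1 = cp 16 p') →
    vsQ 8 8 1 (fun d => (1 + gD p d) + (1 + gD p' d)) + 1 = 26 ∧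
    okR 8 8 1 27 (fun n => if n = 9 then 0 else if n = 26 then 0 else 1) (fun _ => 0)
      (fun d => (1 + gD p d) + (1 + gD p' d)) := by
  decide +kernel

/-- the data of the pair -/
lemma HJ8.pair (hJ : HJ8 P) {z x x' : P} (hl : lev z = 2 * 8 + 1) (hzx : z ⋖ x) (hzx' : z ⋖ x')
    (ht : topOf x ≠ topOf x') (hf : ¬ Fd 8 x) (hf' : ¬ Fd 8 x') {p p' : List ℕ}
    (hpr : Prof 8 x (gD p)) (hpr' : Prof 8 x' (gD p')) :
    ∃ q ∈ lp16, q.1.1 = mp 16 p ∧ q.1.2.1 = cp 16 p ∧ q.2.1 = mp 16 p' ∧ q.2.2.1 = cp 16 p' := by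
  obtain ⟨s, s', h3, h4, h5⟩ := hJ z x x' hl hzx hzx' ht hf hf'
  obtain ⟨e1, e2⟩ := hpr.mX8
  obtain ⟨e3, e4⟩ := hpr'.mX8
  refine ⟨_, h3, ?_, ?_, ?_, ?_⟩
  · have := h4.1
    rw [e1] at this
    exact_mod_cast this.symm
  · have := h4.2.1
    rw [e2] at this
    exact_mod_cast this.symm
  · have := h5.1
    rw [e3] at this
    exact_mod_cast this.symm
  · have := h5.2.1
    rw [e4] at this
    exact_mod_cast this.symm

/-- heavy ends are no fold ends -/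
lemma he_not_fd {x : P} {p : List ℕ} (hp : p ∈ HL 8 8) (hpr : Prof 8 x (gD p)) : ¬ Fd 8 x := by
  rintro ⟨-, -, h5⟩
  have h6 := hpr 14 (by norm_num)
  have h7 : ∀ p ∈ HL 8 8, gD p 14 = 0 := by decide
  rw [h7 p hp, show 2 * 8 - 14 = 2 by norm_num] at h6
  omega

/-- **No pendants below heavy ends and fold ends, no joins of `E7` with `(5;20)`, `j = 16`** -/
theorem lad27 (W : WC r 8 8 K N b θ) (hK : 43 ≤ K) (hJ : HJ8 P) :
    ∀ z ∈ bdR (r2 (2 * 8) N), 27 ≤ cst 8 (h2 (2 * 8) N θ) z := by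
  have L : Lad 8 8 K N θ 27 (fun _ : P => False) (fun _ => 0)
      (sg P 8 (fun n => if n = 9 then 0 else if n = 26 then 0 else 1)) (sg P 8 (fun _ => 0)) := by
    refine ⟨by omega, fun z y h _ => h.elim, fun z _ h => h.elim, sg_ne _, sg_ne _,
      fun z _ h => h.elim, fun z _ h => h.elim, ?_⟩
    intro z hz _ hl
    rcases W.rows0 (by decide) (bd_mem hz) hl with ⟨x, hx, hp, hn⟩ | ⟨x, hx, hp, p, hp', hn⟩ |
      ⟨x, x', hx, hx', ht, hzx, hzx', p, hp, hpr, hn⟩ | ⟨x, x', hx, hx', ht, hzx, hzx', hn⟩ |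
      ⟨x, x', hx, hx', h1, ht, hzx, hzx', p, hp, hpr, hn⟩ |
      ⟨x, x', hx, h1, ht, hzx, hzx', p, p', hp, hp', hpr, hpr', hnf, hn⟩ |
      ⟨x, x', hx, h1, ht, hne, hzx, hzx'⟩ | ⟨hF, h⟩
    · exact nq_ok hn (by decide)
    · refine nq_ok hn ?_
      have h3 : ∀ p ∈ HL 8 8, okR 8 8 1 27
        (fun n => if n = 9 then 0 else if n = 26 then 0 else 1) (fun _ => 0)
        (fun d => 1 + gD p d) := by decide
      exact h3 p hp'
    · refine nq_ok hn ?_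
      have h3 : ∀ p ∈ HL 8 8, 27 ≤ vsQ 8 8 1 (fun d => 1 + pF 8 d + (1 + gD p d)) + 1 := by
        decide
      exact Or.inl (h3 p hp)
    · exact nq_ok hn (by decide)
    · refine nq_ok hn ?_
      have h3 : ∀ p ∈ PL 8 8, 27 ≤ vsQ 8 8 (kF 8 8) (fun d => (1 + pF 8 d) + (1 + gD p d)) +
        kF 8 8 := by decide
      exact Or.inl (h3 p hp)
    · exact nq_ok hn (hv_ok p hp p' hp'
        (hJ.pair hl hzx hzx' ht (he_not_fd hp hpr) hnf hpr hpr')).2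
    · left
      rw [(W.cc_data (bd_mem hz) ⟨hl, x, x', hx, h1, ht, hne, hzx, hzx'⟩).2.2]
      decide
    · left
      refine le_trans ?_ h
      norm_num
  exact fun z hz => (W.wi.ladder L).2 z hz (fun h => h)

/-- no pendants below fold ends and heavy ends -/
theorem nopen8 (W : WC r 8 8 K N b θ) (hK : 43 ≤ K) (hJ : HJ8 P) {z x : P}
    (hz : z ∈ r2 (2 * 8) N) (hl : lev z = 2 * 8 + 1) (hp : Pend z x)
    (hx : Fd 8 x ∨ He 8 8 N θ x) : False := by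
  have H := W.gt.H
  have hc := lad27 W hK hJ z (W.wi.mem_bd hz hl)
  have hth : θ (topOf x) x = 0 := by
    rcases hx with h | h
    · rw [W.fold_th h]
    · exact h.th
  have hlab : h2 (2 * 8) N θ z = 1 := by
    rw [W.wi.h2_eqI hz hl hp.1 (fun y hy => by rw [hp.2 y hy]), hth]
  rcases hx with hx | hx
  · have hn : NQ 8 8 N θ z 1 (fun d => 1 + pF 8 d) := NQ.mk' hl (by norm_num) hlab
      (fun d hd => by
        rw [nab_pend hp (by omega)]
        exact W.fold_prof hx d (by omega))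
    rw [hn.cst] at hc
    exact absurd hc (by decide)
  · obtain ⟨p, hp', hpr⟩ := hx.prof
    have hn : NQ 8 8 N θ z 1 (fun d => 1 + gD p d) := NQ.mk' hl (by norm_num) hlab
      (fun d hd => by
        rw [nab_pend hp (by omega)]
        exact hpr d (by omega))
    rw [hn.cst] at hc
    have h3 : ∀ p ∈ HL 8 8, ¬ 27 ≤ vsQ 8 8 1 (fun d => 1 + gD p d) + 1 := by decide
    exact absurd hc (h3 p hp')

/-- the seventh step -/
theorem s7f_of_hJ8 (W : WC r 8 8 K N b θ) (hK : 43 ≤ K) (hJ : HJ8 P) : S7F P 8 := by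
  have H := W.gt.H
  intro z x x' hl hzx hzx' ht
  by_contra hcon
  rw [not_or] at hcon
  obtain ⟨hf, hf'⟩ := hcon
  have hz := W.join_r2 ht hzx hzx'
  have hc := lad27 W hK hJ z (W.wi.mem_bd hz hl)
  have hne : x ≠ x' := fun h => ht (by rw [h])
  have htop : ∀ y, z ⋖ y → ¬ Fd 8 y := by
    intro y hy
    rcases uc_pair H hzx hzx' hne hy with e | e
    · rw [e]; exact hf
    · rw [e]; exact hf'
  rcases W.rows0 (by decide) hz hl with ⟨y, hy, hp, hn⟩ | ⟨y, hy, hp, p, hp', hn⟩ |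
    ⟨y, y', hy, hy', hty, hzy, hzy', p, hp, hpr, hn⟩ | ⟨y, y', hy, hy', hty, hzy, hzy', hn⟩ |
    ⟨y, y', hy, hy', h1, hty, hzy, hzy', p, hp, hpr, hn⟩ |
    ⟨y, y', hy, h1, hty, hzy, hzy', p, p', hp, hp', hpr, hpr', hnf, hn⟩ |
    ⟨y, y', hy, h1, hty, hney, hzy, hzy'⟩ | ⟨hF, h⟩
  · exact htop y hp.1 hy
  · exact hne ((hp.2 x hzx).trans (hp.2 x' hzx').symm)
  · exact htop y hzy hy
  · exact htop y hzy hy
  · exact htop y hzy hy
  · have h3 := (hv_ok p hp p' hp'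
      (hJ.pair hl hzy hzy' hty (he_not_fd hp hpr) hnf hpr hpr')).1
    rw [hn.cst, h3] at hc
    omega
  · exact htop y hzy hy
  · obtain ⟨u1, u2⟩ := single_of_join W.gt (by omega) hl hzx hzx' ht
    have l1 := (H.covBy_iff.mp hzx).2
    have l2 := (H.covBy_iff.mp hzx').2
    obtain ⟨p, hp, hpr, -⟩ := W.full_prof (by omega) (hF x hzx) u1
    obtain ⟨p', hp', hpr', -⟩ := W.full_prof (by omega) (hF x' hzx') u2
    obtain ⟨q, h3, h4, h5, h6, h7⟩ := hJ.pair hl hzx hzx' ht hf hf' hpr hpr'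
    have h8 : ∀ p ∈ PL 8 8, mp 16 p ≠ 10 := by decide +kernel
    have h9 : ∀ q ∈ lp16, q.1.1 = 10 ∨ q.2.1 = 10 := by decide
    rcases h9 q h3 with h10 | h10
    · exact h8 p hp (h4.symm.trans h10)
    · exact h8 p' hp' (h6.symm.trans h10)

/-- the joins after the windows `0, …, 4` -/
theorem hJ8_of {lo hi : Tops P → ℕ → ℕ} {e : Tops P → ℕ → ℕ → P}
    (Kc : Sm.Ctx P r 16 lo hi e) : HJ8 P := by
  have H := Kc.gt.H
  intro z x x' hl hx hx' ht hf hf'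
  have l1 := (H.covBy_iff.mp hx).2
  have l2 := (H.covBy_iff.mp hx').2
  have hc : Sm.Cg z x x' := Sm.Cg.mk' hx hx' (only_of_le H Kc.gt.good (le_topOf x) (by omega))
    (only_of_le H Kc.gt.good (le_topOf x') (by omega)) ht
  obtain ⟨u1, u2⟩ := Kc.ends hc (by omega)
  have key : ∀ y : P, Sm.Fold 16 y → (Win.uc y).card = 1 → Fi.Fd 8 y := by
    intro y hy hu
    have h2 := hy.2.2 2 (by norm_num)
    exact ⟨hy.1, hu, by omega⟩
  have hs : Sm.Sok 16 x := ⟨fun hf => by have := hf.1; omega, fun _ h => hf (key x h u1)⟩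
  have hs' : Sm.Sok 16 x' := ⟨fun hf => by have := hf.1; omega, fun _ h => hf' (key x' h u2)⟩
  exact Sm.leftg16 Kc hc (by omega) hs hs'

/-- **S7 for `j = 16`**, without any hypothesis at window `3` -/
theorem s7f16 (G : Win.GoodTo P r 16) (hr : 16 + 1 ≤ r)
    {lo hi : Tops P → ℕ → ℕ} {e : Tops P → ℕ → ℕ → P}
    (C : ∀ t : Tops P, Cp.Comp 16 (t : P) (lo t) (hi t) (e t))
    (hS : ∀ t, Wd.Shape 16 (lo t) (hi t)) : S7F P 8 := by
  obtain ⟨N, θ, W⟩ := exists_WC (i := 8) (m := 8) (Or.inl ⟨rfl, rfl⟩) G hr C hS kapR88 kapS88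
    (by norm_num)
  exact s7f_of_hJ8 W le_rfl (hJ8_of ⟨G, by norm_num, by norm_num, C, hS⟩)

/-- **No joins of level `17`**: `j = 16` -/
theorem no_jn16' (G : Win.GoodTo P r 16) (hr : 16 + 1 ≤ r)
    {lo hi : Tops P → ℕ → ℕ} {e : Tops P → ℕ → ℕ → P}
    (C : ∀ t : Tops P, Cp.Comp 16 (t : P) (lo t) (hi t) (e t))
    (hS : ∀ t, Wd.Shape 16 (lo t) (hi t)) (z : P) (hl : lev z = 16 + 1) : ¬ Hul.Jn z :=
  no_jn16 G hr C hS (s7f16 G hr C hS) z hl

end Pool.Agent.GaussPoset.Fi
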