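import Pool.Agent.W_448s7_h27.PhK
import Pool.Agent.W_448s7s_h5.SrJ16
import Pool.Agent.W_448w4_h70.WH

/-!
S7 for `j = 16`, the windows `0, …, 4` without own elements at window `3` (MP_448cb3_co).
-/

namespace Pool.Agent.GaussPoset.Sm

set_option linter.unusedSectionVars false

open Finset Wd Ec W4

universe u

variable {P : Type u} [Fintype P] [PartialOrder P] [DecidableEq P] {r j w : ℕ}

section

variable {J : ℤ} {W : ℕ} {cap cap' : ℕ → ℤ} {tA tB : List (List ℤ)} {f : ℕ} {κ g : ℤ}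

lemma dead_cap (hc : ∀ w ≤ W, cap' w ≤ cap w) (h : dead J W cap κ g = true) :
    dead J W cap' κ g = true := by
  unfold dead at h ⊢
  rw [List.all_eq_true] at h ⊢
  intro w hw
  have h1 := h w hw
  rw [decide_eq_true_eq] at h1 ⊢
  have h2 := hc w (by
    rw [List.mem_range] at hw
    omega)
  linarith

lemma okF_cap (hc : ∀ w ≤ W, cap' w ≤ cap w) (h : okF J W cap tA tB f κ g = true) :
    okF J W cap' tA tB f κ g = true := by
  unfold okF at h ⊢
  rw [Bool.or_eq_true] at h ⊢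
  exact h.imp (dead_cap hc) id

end

/-- the tables for smaller caps -/
lemma TabF.mono {j W : ℕ} {cap cap' : ℕ → ℤ} {tA tB : List (List ℤ)}
    {E S1 S2 : List (ℕ × ℕ × ℕ × ℕ)} {X : ℕ × ℕ × ℕ → ℕ × ℕ × ℕ → Bool}
    (h : TabF j W cap tA tB E S1 S2 X) (hc : ∀ w ≤ W, cap' w ≤ cap w) :
    TabF j W cap' tA tB E S1 S2 X where
  h12 := h.h12
  wj := h.wj
  e := h.e
  s1 := h.s1
  s2 := h.s2
  e0 := h.e0
  s10 := h.s10
  s20 := h.s20
  len := h.len
  c0 := by
    have h0 := h.c0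
    unfold chk0F at h0 ⊢
    rw [List.all_eq_true] at h0 ⊢
    intro s hs
    have h1 := h0 s hs
    rw [List.all_eq_true] at h1 ⊢
    intro s' hs'
    have h2 := h1 s' hs'
    rw [Bool.or_eq_true] at h2 ⊢
    exact h2.imp id (okF_cap hc)
  c1 := by
    have h0 := h.c1
    unfold chk1F at h0 ⊢
    rw [List.all_eq_true] at h0 ⊢
    intro s hs
    have h1 := h0 s hs
    rw [List.all_eq_true] at h1 ⊢
    intro s' hs'
    exact okF_cap hc (h1 s' hs')
  c2 := by
    have h0 := h.c2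
    unfold chk2F at h0 ⊢
    rw [List.all_eq_true] at h0 ⊢
    intro s hs
    have h1 := h0 s hs
    rw [List.all_eq_true] at h1 ⊢
    intro s' hs'
    have h2 := h1 s' hs'
    rw [List.all_eq_true] at h2 ⊢
    intro q hq
    have h3 := h2 q hq
    rw [Bool.or_eq_true] at h3 ⊢
    refine h3.imp id fun h3 => ?_
    rw [List.all_eq_true] at h3 ⊢
    intro n hn
    have h4 := h3 n hn
    rw [List.all_eq_true] at h4 ⊢
    intro d hd
    have h5 := h4 d hd
    rw [Bool.or_eq_true] at h5 ⊢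
    exact h5.imp id (okF_cap hc)
  cb := by
    have h0 := h.cb
    unfold chkBF at h0 ⊢
    rw [List.all_eq_true] at h0 ⊢
    intro w hw
    have h1 := h0 w hw
    rw [Bool.and_eq_true, decide_eq_true_eq] at h1 ⊢
    have h2 := hc w (by
      rw [List.mem_range] at hw
      omega)
    exact ⟨by linarith [h1.1], h1.2⟩

variable {lo hi : Tops P → ℕ → ℕ} {e : Tops P → ℕ → ℕ → P}

/-- the balance at window `3` up to the naive cap -/
theorem w3h16 (K : Ctx P r 16 lo hi e) : W3H P r 16 lo hi 88 (nor16 3) (ner16 3) 0 := by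
  intro N θ3 θ4 S hJ
  obtain ⟨v, h1, h2, h3⟩ := win3_sy K (by norm_num) S (cT := 88) (LE := []) (LO := [47])
    (lb := 0) chkEr16 (by decide +kernel)
    (fun h => absurd h (by norm_num))
    (by decide +kernel) (by decide +kernel)
    (fun h => absurd h (by norm_num))
    (fun _ => by decide +kernel)
    (fun _ => Or.inr ⟨by decide +kernel, by decide +kernel⟩)
    (by norm_num) (by norm_num) (by norm_num) (by decide +kernel) (by decide +kernel) hJ
  exact ⟨_, v, h1, h2, h3⟩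

/-- caps -/
def cg16 (w : ℕ) : ℤ := if w = 4 then 75 else cr16 w

lemma cg16_le : ∀ w ≤ 4, cg16 w ≤ cf16 w := by decide +kernel

theorem tabg16 : TabF 16 4 cg16 LA16 LB16 Ef16 Sf16a Sf16b XN := tabf16.mono cg16_le

theorem tabgx16 : TabF 16 4 cg16 LA16 LX16 Ef16 Sf16a Sf16b (XQ (10, 80, 0)) :=
  tabx16.mono cg16_le

/-- the windows `0, …, 3` -/
lemma sg16 : rnds (aX LA16 LB16 [] ((16 : ℕ) : ℤ)) nor16 ner16 cg16 (odds LA16.length)
    (evens LA16.length) ((16 : ℕ) : ℤ) 300 4 26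
    ((List.range 4).map fun w => min (lwr16 w) (cg16 w + 1)) = [120, 112, 102, 89] := by
  decide +kernel

lemma restg16 : restF 16 Ef16 (XQ (10, 80, 0)) [120, 112, 102, 89] [75] =
    [((5, 20, 1), (10, 80, 0)), ((10, 80, 0), (5, 20, 1))] := by
  decide +kernel

/-- **The joins of level `17` after the windows `0, …, 4`**: only `E7` with `(5;20)` -/
theorem leftg16 (K : Ctx P r 16 lo hi e) {z x x' : P} (h : Cg z x x') (hl : lev z = 17)
    (hs : Sok 16 x) (hs' : Sok 16 x') : ∃ s s' : ℕ × ℕ × ℕ,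
      (s, s') ∈ [(((5, 20, 1) : ℕ × ℕ × ℕ), ((10, 80, 0) : ℕ × ℕ × ℕ)),
        ((10, 80, 0), (5, 20, 1))] ∧ Dt 16 x s ∧ Dt 16 x' s' := by
  classical
  have hN := noP_XN (P := P) 16
  have T := tabg16
  have hJ : ∃ z : P, Hul.Jn z := ⟨z, h.jn⟩
  obtain ⟨N, θ3, θ4, Nf, θf, D, S, F⟩ := exists_fs K (by norm_num)
  obtain ⟨K3, v, M, W, B3⟩ := w3h16 K N θ3 θ4 S hJ
  have hb := balr16 K (noFo_big (by norm_num)) hJ
  obtain ⟨V0, h0⟩ := hb 0 (by norm_num)
  obtain ⟨V1, h1⟩ := hb 1 (by norm_num)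
  obtain ⟨V2, h2⟩ := hb 2 (by norm_num)
  obtain ⟨V, hV0, hV1, hV2, hV3⟩ : ∃ V : ℕ → ℤ, V 0 = V0 ∧ V 1 = V1 ∧ V 2 = V2 ∧
      V 3 = (v : ℤ) - ((16 + 1 - 3 : ℕ) : ℤ) ^ 2 :=
    ⟨fun w => if w = 0 then V0 else if w = 1 then V1 else if w = 2 then V2 else
      (v : ℤ) - ((16 + 1 - 3 : ℕ) : ℤ) ^ 2, rfl, rfl, rfl, rfl⟩
  have hB : Bals P 16 cg16 nor16 ner16 lwr16 V := by
    intro w hw
    have : w = 0 ∨ w = 1 ∨ w = 2 ∨ w = 3 := by omega
    rcases this with rfl | rfl | rfl | rfl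
    · rw [hV0]; exact h0
    · rw [hV1]; exact h1
    · rw [hV2]; exact h2
    · rw [hV3]; exact B3
  obtain ⟨hF1, hF2⟩ := fo_cost K (by norm_num) chkEr16 (by decide +kernel) (n := 255)
    (by decide +kernel) (by decide +kernel)
  have s1 : StF P 16 V [120, 112, 102, 89] [] := sg16 ▸ K.sweepF hN T hB (StF.start hB) 300 26
  have Y : Y4 r 16 K3 (13 ^ 2 + 75) (14 ^ 2 + 81) N _ θ3 θ4 :=
    y4_of S W M (s1.v3 hV3 (by norm_num)) nm_16_75
  have hno : HnO P 16 (13 ^ 2 + 75) := fun _ => Or.inl (by decide +kernel)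
  have hj234 : ∀ z x x' : P, Cg z x x' → 234 ≤ ful 4 z :=
    K.costF hN T hB s1 (T0 := 65) (hF1.mono (by norm_num)) (by decide +kernel)
      (by decide +kernel) (by decide +kernel) (fun _ => by decide +kernel)
  have hE2 := F.no_E2_16 K Y hno (by norm_num) hj234
  have hOw := F.no_own_16 K Y hno (by norm_num) fun z x x' h => le_trans (by norm_num) (hj234 z x x' h)
  have hN2 := K.noP_XQ (b := 0) F row5_16 chkW16 (by norm_num) (by decide +kernel) hE2
  have T2 := tabgx16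
  have s2 : StF P 16 V [120, 112, 102, 89] [75] :=
    K.stepF hN2 T2 hB s1 (T0 := 75) (p := 1) (hF1.mono (by norm_num))
      (by decide +kernel) (by decide +kernel) (by decide +kernel) (by decide +kernel)
      (fun _ => by decide +kernel)
      (fun hj hp => F.killG16 K Y hno (by norm_num) (hF2 _ (by norm_num))
        (Or.inr (Or.inr ⟨by norm_num, hE2, hOw⟩)) hj hp)
  obtain ⟨s, s', g1, d, d'⟩ := K.leftS hN2 T2 hB s2 h hl hs hs'
  rw [restg16] at g1
  exact ⟨s, s', g1, d, d'⟩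

end Pool.Agent.GaussPoset.Sm
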